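import Pool.Agent.P.MP_8fb1ed_pr.Main

open MeasureTheory
open scoped ENNReal
open Pool.Agent.FusfTree

/-- In every Cayley graph of a finitely generated approximately treeable group, the free uniform
spanning forest is connected by an invariant percolation of arbitrarily small density. -/
theorem Pool.Agent.FusfTree.approxTreeable_result {Γ : Type*} [Group Γ]
    (S : Finset Γ) (hgen : Subgroup.closure (S : Set Γ) = ⊤) (hT : ApproxTreeable Γ) :
    ∃ μ : Measure (Cfg Γ), IsFUSF (SimpleGraph.mulCayley (S : Set Γ)) μ ∧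
      (∀ μ', IsFUSF (SimpleGraph.mulCayley (S : Set Γ)) μ' → μ' = μ) ∧
      ∀ ε : ℝ≥0∞, 0 < ε → ∃ ν : Measure (Cfg Γ × Cfg Γ), IsProbabilityMeasure ν ∧
        (∀ g : Γ, ν.map (fun p => (shift g p.1, shift g p.2)) = ν) ∧ ν.map Prod.fst = μ ∧
        ∫⁻ p, ({y | (graphOf p.2).Adj 1 y}.encard : ℝ≥0∞) ∂ν < ε ∧
        ∀ᵐ p ∂ν, graphOf p.1 ⊔ graphOf p.2 ≤ SimpleGraph.mulCayley (S : Set Γ) ∧
          (graphOf p.1 ⊔ graphOf p.2).Connected := by
  have := countable_of_gen S hgen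
  have hG := cay_mulCayley S hgen
  obtain ⟨μ, hμ, huniq, hinv, hμG⟩ := exists_fusf hG
  have := hμ.1
  exact ⟨μ, hμ, huniq, fun ε hε => sparse_connect hG hT hinv hμG (fusf_complete hG.conn hμ) hε⟩
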